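import Pool.Agent.helper23.F2.Spec

/-!
# MP_26dbae_co, S07735, row MT7 (helper44)
-/

set_option autoImplicit false

open scoped BigOperators

namespace Pool.Agent.F2

open Pool.Agent.helper23.TH

noncomputable section

open Classical

theorem MT7_am_symm {V : Type} (A : V → V → Prop) (hA : ∀ u v, A u v → A v u) :
    (am A).transpose = am A := by
  ext a b
  simp only [Matrix.transpose_apply, am, Matrix.of_apply]
  have : A b a ↔ A a b := ⟨hA _ _, hA _ _⟩
  simp only [this]

theorem MT7_am_nonneg {V : Type} (A : V → V → Prop) (u v : V) : 0 ≤ am A u v := by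
  simp only [am, Matrix.of_apply]
  split_ifs <;> norm_num

theorem MT7_sq {V : Type} [Fintype V] (A : V → V → Prop) (u v : V) :
    (am A ^ 2) u v = ∑ w, am A u w * am A w v := by
  rw [pow_two, Matrix.mul_apply]

theorem MT7_trace {V : Type} [Fintype V] (d : V → ℝ) (M N : Matrix V V ℝ)
    (hN : N.transpose = N) :
    Matrix.trace (Matrix.diagonal d * M * Matrix.diagonal d * N) =
      ∑ z, ∑ z', (d z * M z z' * d z') * N z z' := by
  rw [Matrix.trace]
  refine Finset.sum_congr rfl fun z _ => ?_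
  rw [Matrix.diag_apply, Matrix.mul_apply]
  refine Finset.sum_congr rfl fun z' _ => ?_
  rw [Matrix.mul_diagonal, Matrix.diagonal_mul]
  have h : N z' z = N z z' := by
    rw [← Matrix.transpose_apply N z z', hN]
  rw [h]

theorem MT7 (hMT1 : MT1_stmt) (hMT4 : MT4_stmt) (hMT5 : MT5_stmt) : MT7_stmt := by
  intro V L _ _ b s G Δ hΔ t i hi0 hil
  have hi1 : 1 ≤ i.1 := by
    rcases Nat.eq_zero_or_pos i.1 with h | h
    · exact absurd (Fin.ext h) hi0
    · exact h
  have hi2 : i.1 < t := by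
    have h1 := i.2
    rcases lt_or_ge i.1 t with h | h
    · exact h
    · exact absurd (Fin.ext (by simp; omega)) hil
  set A : Matrix V V ℝ := am G.A with hA
  have hAt : A.transpose = A := MT7_am_symm G.A G.symm
  have hP : ∀ x, (G.PM x).transpose = G.PM x := fun x => by
    unfold LG.PM
    rw [Matrix.diagonal_transpose]
  obtain ⟨i', hi'⟩ : ∃ i', i.1 = i' + 1 := ⟨i.1 - 1, by omega⟩
  obtain ⟨j', hj'⟩ : ∃ j', t - i.1 = j' + 1 := ⟨t - i.1 - 1, by omega⟩
  obtain ⟨n, hn⟩ : ∃ n, t - 1 = n := ⟨t - 1, rfl⟩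
  have hn' : i' + j' + 1 = n := by omega
  have h1 : G.FF t (.inl i) = ∑ x, nsq (A ^ (i' + 1) * G.PM x * A ^ (j' + 1)) := by
    unfold LG.FF LG.MM
    simp only
    rw [hi', ← hj', hi', hA]
  have h2 := (hMT4 V L A G.PM hAt hP i' j').2
  rw [hn'] at h2
  have h3 : ∀ x, nsq (A * G.PM x * A ^ n) =
      ∑ z, ∑ z', ((if x ∈ G.lv z then (1 : ℝ) else 0) * (A ^ 2) z z' *
        (if x ∈ G.lv z' then (1 : ℝ) else 0)) * (A ^ (2 * n)) z z' := by
    intro x
    have h4 := hMT1 V A (G.PM x) hAt (hP x) 1 n 1 n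
    rw [pow_one] at h4
    have h5 : nsq (A * G.PM x * A ^ n) = ip (A * G.PM x * A ^ n) (A * G.PM x * A ^ n) := by
      unfold nsq ip
      simp only [sq]
    rw [h5, h4, ← two_mul n]
    refine MT7_trace _ (A ^ (1 + 1)) _ ?_
    rw [Matrix.transpose_pow, hAt]
  set B : Matrix V V ℝ := Matrix.of fun z z' => ∑ x, (if x ∈ G.lv z then (1 : ℝ) else 0) *
    (A ^ 2) z z' * (if x ∈ G.lv z' then (1 : ℝ) else 0) with hB
  have h6 : ∑ x, nsq (A * G.PM x * A ^ n) = ∑ z, ∑ z', B z z' * (A ^ (2 * n)) z z' := by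
    simp only [h3]
    rw [Finset.sum_comm]
    refine Finset.sum_congr rfl fun z _ => ?_
    rw [Finset.sum_comm]
    refine Finset.sum_congr rfl fun z' _ => ?_
    rw [hB, Matrix.of_apply, Finset.sum_mul]
  have hA2s : ∀ z z', (A ^ 2) z z' = (A ^ 2) z' z := by
    intro z z'
    have h7 : (A ^ 2).transpose = A ^ 2 := by rw [Matrix.transpose_pow, hAt]
    rw [← Matrix.transpose_apply (A ^ 2) z' z, h7]
  have hA2n : ∀ z z', 0 ≤ (A ^ 2) z z' := by
    intro z z'
    rw [hA, MT7_sq]
    exact Finset.sum_nonneg fun w _ => mul_nonneg (MT7_am_nonneg _ _ _) (MT7_am_nonneg _ _ _)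
  have hBt : B.transpose = B := by
    ext z z'
    rw [Matrix.transpose_apply, hB, Matrix.of_apply, Matrix.of_apply]
    refine Finset.sum_congr rfl fun x _ => ?_
    rw [hA2s z' z]
    ring
  have hB0 : ∀ z z', 0 ≤ B z z' := by
    intro z z'
    rw [hB, Matrix.of_apply]
    refine Finset.sum_nonneg fun x _ => ?_
    refine mul_nonneg (mul_nonneg ?_ (hA2n z z')) ?_
    · split_ifs <;> norm_num
    · split_ifs <;> norm_num
  have hBr : ∀ z, ∑ z', B z z' ≤ (b : ℝ) * s * Δ := by
    intro z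
    have e1 : ∑ z', B z z' = ∑ x, (if x ∈ G.lv z then (1 : ℝ) else 0) *
        ∑ w, A z w * ∑ z', A w z' * (if x ∈ G.lv z' then (1 : ℝ) else 0) := by
      simp only [hB, Matrix.of_apply]
      rw [Finset.sum_comm]
      refine Finset.sum_congr rfl fun x _ => ?_
      have e2 : ∀ z', (if x ∈ G.lv z then (1 : ℝ) else 0) * (A ^ 2) z z' *
          (if x ∈ G.lv z' then (1 : ℝ) else 0) = (if x ∈ G.lv z then (1 : ℝ) else 0) *
            ∑ w, A z w * (A w z' * (if x ∈ G.lv z' then (1 : ℝ) else 0)) := by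
        intro z'
        rw [hA, MT7_sq, mul_assoc, Finset.sum_mul]
        congr 1
        refine Finset.sum_congr rfl fun w _ => ?_
        ring
      simp only [e2]
      rw [← Finset.mul_sum, Finset.sum_comm]
      congr 1
      refine Finset.sum_congr rfl fun w _ => ?_
      rw [Finset.mul_sum]
    have e3 : ∀ x w, ∑ z', A w z' * (if x ∈ G.lv z' then (1 : ℝ) else 0) ≤ s := by
      intro x w
      have e4 : ∑ z', A w z' * (if x ∈ G.lv z' then (1 : ℝ) else 0) =
          ((Finset.univ.filter fun z' => G.A w z' ∧ x ∈ G.lv z').card : ℝ) := by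
        rw [Finset.card_filter]
        push_cast
        refine Finset.sum_congr rfl fun z' _ => ?_
        simp only [hA, am, Matrix.of_apply]
        by_cases g1 : G.A w z' <;> by_cases g2 : x ∈ G.lv z' <;> simp [g1, g2]
      rw [e4]
      have e5 := G.sp w x (Finset.univ.filter fun z' => G.A w z' ∧ x ∈ G.lv z') (by
        intro w' hw'
        rw [Finset.mem_filter] at hw'
        exact ⟨hw'.2.1, Or.inl hw'.2.2⟩)
      exact_mod_cast e5
    have e6 : ∑ w, A z w = (dg G.A Finset.univ z : ℝ) := by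
      unfold dg
      rw [Finset.card_filter]
      push_cast
      refine Finset.sum_congr rfl fun w _ => ?_
      simp only [hA, am, Matrix.of_apply]
    have e7 : ∑ x, (if x ∈ G.lv z then (1 : ℝ) else 0) = ((G.lv z).card : ℝ) := by
      rw [Finset.sum_boole]
      congr 2
      ext x
      simp
    have e8 : ((G.lv z).card : ℝ) ≤ b := by exact_mod_cast G.bv z
    have e9 : ∀ x, ∑ w, A z w * ∑ z', A w z' * (if x ∈ G.lv z' then (1 : ℝ) else 0) ≤ s * Δ := by
      intro x
      calc ∑ w, A z w * ∑ z', A w z' * (if x ∈ G.lv z' then (1 : ℝ) else 0)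
          ≤ ∑ w, A z w * (s : ℝ) := Finset.sum_le_sum fun w _ =>
            mul_le_mul_of_nonneg_left (e3 x w) (MT7_am_nonneg _ _ _)
        _ = s * (dg G.A Finset.univ z : ℝ) := by rw [← Finset.sum_mul, e6]; ring
        _ ≤ s * Δ := mul_le_mul_of_nonneg_left (hΔ z) (Nat.cast_nonneg _)
    rw [e1]
    have hsΔ : 0 ≤ (s : ℝ) * Δ :=
      mul_nonneg (Nat.cast_nonneg _) (le_trans (Nat.cast_nonneg _) (hΔ z))
    calc ∑ x, (if x ∈ G.lv z then (1 : ℝ) else 0) *
          ∑ w, A z w * ∑ z', A w z' * (if x ∈ G.lv z' then (1 : ℝ) else 0)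
        ≤ ∑ x, (if x ∈ G.lv z then (1 : ℝ) else 0) * (s * Δ) := by
          refine Finset.sum_le_sum fun x _ => mul_le_mul_of_nonneg_left (e9 x) ?_
          split_ifs <;> norm_num
      _ = ((G.lv z).card : ℝ) * (s * Δ) := by rw [← Finset.sum_mul, e7]
      _ ≤ b * (s * Δ) := mul_le_mul_of_nonneg_right e8 hsΔ
      _ = b * s * Δ := by ring
  have h8 := hMT5 V A B (b * s * Δ) n hAt hBt hB0 hBr
  rw [h1, hn]
  refine h2.trans ?_
  rw [h6]
  exact h8

end

end Pool.Agent.F2
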